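import Pool.Agent.Helper45.RTD.A7T
import Pool.Agent.Helper45.RTD.ALib

set_option maxRecDepth 100000
set_option autoImplicit false

namespace RTwo.DA

theorem t7_0 : tabOK 7 T7_0 lib 1024 0 (0x7f000590752001007fa005807b9000f07bb004f0759801007f1805707f0005607f0805506f1805406f0005407b0005407b0005303f1805207f00018075000100770005106f28050079080100759000e07b9804f05f8004e07f9004d03d8001007d0004c06d1801007f0804b07f0004a07f0004907f000480778804707f0004605f0004507f2804407f0004307f0004207f0004107f0004003f1003f0779803e07f0003d07f0003c07f0003b07f0003a07f8803907f0003807f000370750801003f8000c07f0003607b2803507f0003307f0003207f0003107b0003007d8802f07f0002d0772002c07f1802b07f0002a07da002907f000280610800007f0002707f0002607f8002505fb002407f0002307f0002107f0001f0590001e0779801d077a001d07f0001c07f0001b07f0001a07fb001907fa001807f0001707f0001607d3000c07b9001407f000120739001006b9001003f8001107b2800f06b3000e06700007007a0000007b000000d10000007200000070800006f0000c07f9000b07f0000a07f9000905d880070071000005b1000507f0000407d0000307d9800307f0000205b800100798801007d880340770002f06f1802e07d8000c0679002206f0002007f000130378800e051000000151000005720006013b000005f100540738001007b8001502500000073000050578000607f800020772002f0130800003b0800d07b90008023000000132800002720001079900100779802f00ba800001720001013100000071800000b1000005700007051100000290800000b20000015b0000045100000758001003b800100491000004918000013a800000b28000013200000430000000b08000049000000251800000b18000045b0000047800010450000000bb000002520000023b0000023100000079800000ba000004518000047180010232000004700001025b000002318000047200010230800004520000023a800002328000043b00000432000004328000043100000431800000000000)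 = true := by decide +kernel


end RTwo.DA
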