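import Pool.Agent.Helper45.RTD.A9T
import Pool.Agent.Helper45.RTD.ALib

set_option maxRecDepth 100000
set_option autoImplicit false

namespace RTwo.DA

theorem t9_6 : tabOK 9 T9_6 lib 1024 0 (0x1d5981051e5103ca1fb802f40a54005e1ff1062e1b7b04eb06f8028d1f7002a71ff4062d06f88152167c00de167c00df1ef800cb1ff1862d1bf8862b1f78862a19d901930bf0837416d880c81fb903c419b000e51a7c00de1a7c00df137c03d619b400d4137400ad1cbb81070b99808b1c7300980a74008f1674017719f380561f3c00161f3400161ff386281f31801614fc0627197b80b01731021a0a7c02091f3a03af197b813213b401b91ffb862619f883b613dc021e1bd300561ffc062507f380191ff1862419d000d4195000af1ff8849e13f800190b7a02a6175c012e0bbc012e1f3a00161cbb001d14f302371a78013112d4009b08f2808419f9043a197c01801d7080181a7400a81473808f07fa004a1732021a1abc02010b7c01470b78038c1d9000be1733807507f9837515bc035509f4017c1e7006221e31804f16b4020b1b5a019316b4039713fc01be13f401be1b51819316bc020b16bc03971751004f1e730622197b834307f881fd19dc00d416b401cc07f901fd0af90212197c01971ff906231ed08049197c015814f400b314f4019412b4013c1ff3862119d400d41ef8862012bc01bc1ff405d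01ff3857e1c7c036d0c7c009b1e3c060d11f4006b11f4021e0db801291358808f19b801321cd083dd11fc011c077380db1cd0808111fc011611f28133173c013311f3010611fc004c1d90810d1c9080101671007012b3808f0ff3861f16b400f718fc00ff0eba0081167c03dc0db901af0dbc03db0e7a838c05f403da1bf383441ffa057f0dfb001913ba00ee0b7080290d94008b18f381ee1e7b00180778812b0d78012919fb8130077800ea0e7380ea0cb3808e09f303770cbc009405b9008b1734011c0b7c008d173c011c1732010609f8024112f380780b780124163800710c31005e0db2803f0c3a805e0b7381240b74008d19f8003c175a01691fd883c706d880820ff903761f7003c81ffa061b1efa061516d001901ed0061c0db902421ffb861b1f5a861a06da009b1ef0060f0ffa83761e5083801fd082c806d1809b16dc02ac1bf2038b1eda86191f7086181efa86170db8010307fa039919d9819314f300691e5301061e3381161e3381061df986150db3818a1db006140db381081e5a810518dc009b1bf403481933808b07d2021213d880b31f1a80f31cb4007b1b3c01931d3c01931999008b0eda00f3077200f313b1804f1b3083801f1980a61d39811613d8807813b381e7077101c513b3807518db008b19d900d413b980ee1e3800e4199b808b) = true := by decide +kernel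


end RTwo.DA
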