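import Pool.Agent.Helper45.RT.Join
import Pool.Agent.Helper45.RTD.C10S0
import Pool.Agent.Helper45.RTD.C10S1
import Pool.Agent.Helper45.RTD.C10TC0
import Pool.Agent.Helper45.RTD.C7F
import Pool.Agent.Helper45.RTD.C7TC0
import Pool.Agent.Helper45.RTD.C8S0
import Pool.Agent.Helper45.RTD.C8S1
import Pool.Agent.Helper45.RTD.C8S2
import Pool.Agent.Helper45.RTD.C8S3
import Pool.Agent.Helper45.RTD.C8S4
import Pool.Agent.Helper45.RTD.C8S5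
import Pool.Agent.Helper45.RTD.C8S6
import Pool.Agent.Helper45.RTD.C8S7
import Pool.Agent.Helper45.RTD.C8S8
import Pool.Agent.Helper45.RTD.C8S9
import Pool.Agent.Helper45.RTD.C8TC0
import Pool.Agent.Helper45.RTD.C8TC1
import Pool.Agent.Helper45.RTD.C8TC2
import Pool.Agent.Helper45.RTD.C9S0
import Pool.Agent.Helper45.RTD.C9S1
import Pool.Agent.Helper45.RTD.C9S10
import Pool.Agent.Helper45.RTD.C9S11
import Pool.Agent.Helper45.RTD.C9S12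
import Pool.Agent.Helper45.RTD.C9S13
import Pool.Agent.Helper45.RTD.C9S14
import Pool.Agent.Helper45.RTD.C9S2
import Pool.Agent.Helper45.RTD.C9S3
import Pool.Agent.Helper45.RTD.C9S4
import Pool.Agent.Helper45.RTD.C9S5
import Pool.Agent.Helper45.RTD.C9S6
import Pool.Agent.Helper45.RTD.C9S7
import Pool.Agent.Helper45.RTD.C9S8
import Pool.Agent.Helper45.RTD.C9S9
import Pool.Agent.Helper45.RTD.C9TC0
import Pool.Agent.Helper45.RTD.C9TC1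
import Pool.Agent.Helper45.RTD.C9TC2
import Pool.Agent.Helper45.RTD.C9TC3
import Pool.Agent.Helper45.RTD.CLibC0
import Pool.Agent.Helper45.RTD.CLibC1
import Pool.Agent.Helper45.RTD.CLibC2
import Pool.Agent.Helper45.RTD.CLibC3
import Pool.Agent.Helper45.RTD.CQ

/-!
Joining the pieces of the data of chain C.
-/

set_option autoImplicit false

namespace RTwo.DC

open RTwo.Glue

theorem lt_0 : LibTo K2 lib 0 := libTo_zero _ _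

theorem lt_1 : LibTo K2 lib 220 := Join.libTo lt_0 c0 lenC0 rfl

theorem lt_2 : LibTo K2 lib 440 := Join.libTo lt_1 c1 lenC1 rfl

theorem lt_3 : LibTo K2 lib 660 := Join.libTo lt_2 c2 lenC2 rfl

theorem lt_4 : LibTo K2 lib 880 := Join.libTo lt_3 c3 lenC3 rfl

theorem lt_5 : LibTo K2 lib 1100 := Join.libTo lt_4 c4 lenC4 rfl

theorem lt_6 : LibTo K2 lib 1320 := Join.libTo lt_5 c5 lenC5 rfl

theorem lt_7 : LibTo K2 lib 1540 := Join.libTo lt_6 c6 lenC6 rfl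

theorem lt_8 : LibTo K2 lib 1760 := Join.libTo lt_7 c7 lenC7 rfl

theorem lt_9 : LibTo K2 lib 1980 := Join.libTo lt_8 c8 lenC8 rfl

theorem lt_10 : LibTo K2 lib 2200 := Join.libTo lt_9 c9 lenC9 rfl

theorem lt_11 : LibTo K2 lib 2420 := Join.libTo lt_10 c10 lenC10 rfl

theorem lt_12 : LibTo K2 lib 2640 := Join.libTo lt_11 c11 lenC11 rfl

theorem lt_13 : LibTo K2 lib 2860 := Join.libTo lt_12 c12 lenC12 rfl

theorem lt_14 : LibTo K2 lib 3080 := Join.libTo lt_13 c13 lenC13 rfl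

theorem lt_15 : LibTo K2 lib 3300 := Join.libTo lt_14 c14 lenC14 rfl

theorem lt_16 : LibTo K2 lib 3520 := Join.libTo lt_15 c15 lenC15 rfl

theorem lt_17 : LibTo K2 lib 3740 := Join.libTo lt_16 c16 lenC16 rfl

theorem lt_18 : LibTo K2 lib 3960 := Join.libTo lt_17 c17 lenC17 rfl

theorem lt_19 : LibTo K2 lib 4180 := Join.libTo lt_18 c18 lenC18 rfl

theorem lt_20 : LibTo K2 lib 4400 := Join.libTo lt_19 c19 lenC19 rfl

theorem lt_21 : LibTo K2 lib 4620 := Join.libTo lt_20 c20 lenC20 rfl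

theorem lt_22 : LibTo K2 lib 4840 := Join.libTo lt_21 c21 lenC21 rfl

theorem lt_23 : LibTo K2 lib 5060 := Join.libTo lt_22 c22 lenC22 rfl

theorem lt_24 : LibTo K2 lib 5280 := Join.libTo lt_23 c23 lenC23 rfl

theorem lt_25 : LibTo K2 lib 5500 := Join.libTo lt_24 c24 lenC24 rfl

theorem lt_26 : LibTo K2 lib 5720 := Join.libTo lt_25 c25 lenC25 rfl

theorem lt_27 : LibTo K2 lib 5940 := Join.libTo lt_26 c26 lenC26 rfl

theorem lt_28 : LibTo K2 lib 6160 := Join.libTo lt_27 c27 lenC27 rfl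

theorem lt_29 : LibTo K2 lib 6380 := Join.libTo lt_28 c28 lenC28 rfl

theorem lt_30 : LibTo K2 lib 6456 := Join.libTo lt_29 c29 lenC29 rfl

theorem libok : LibOK K2 lib := Join.libOK_of covlib lt_30

theorem tab7 : TabOK 7 lib T7 :=
  List.forall_mem_cons.2 ⟨⟨_, t7_0⟩,
    List.forall_mem_cons.2 ⟨⟨_, t7_1⟩,
    List.forall_mem_nil _⟩⟩

theorem ft_0 : FiltTo (IOK K2) L7 RTwo.DP.L7 0 := filtTo_zero _ _ _

theorem ft_1 : FiltTo (IOK K2) L7 RTwo.DP.L7 2000 :=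
  Join.filtTo Join.small2 libok tab7 ft_0 f0 rfl

theorem ft_2 : FiltTo (IOK K2) L7 RTwo.DP.L7 4000 :=
  Join.filtTo Join.small2 libok tab7 ft_1 f1 rfl

theorem ft_3 : FiltTo (IOK K2) L7 RTwo.DP.L7 6000 :=
  Join.filtTo Join.small2 libok tab7 ft_2 f2 rfl

theorem ft_4 : FiltTo (IOK K2) L7 RTwo.DP.L7 8000 :=
  Join.filtTo Join.small2 libok tab7 ft_3 f3 rfl

theorem ft_5 : FiltTo (IOK K2) L7 RTwo.DP.L7 10000 :=
  Join.filtTo Join.small2 libok tab7 ft_4 f4 rfl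

theorem ft_6 : FiltTo (IOK K2) L7 RTwo.DP.L7 11158 :=
  Join.filtTo Join.small2 libok tab7 ft_5 f5 rfl

theorem filfact : FiltFact K2 RTwo.DP.L7 L7 := Join.filtFact RTwo.DP.cov7 ft_6

theorem tab8 : TabOK 8 lib T8 :=
  List.forall_mem_cons.2 ⟨⟨_, t8_0⟩,
    List.forall_mem_cons.2 ⟨⟨_, t8_1⟩,
    List.forall_mem_cons.2 ⟨⟨_, t8_2⟩,
    List.forall_mem_cons.2 ⟨⟨_, t8_3⟩,
    List.forall_mem_cons.2 ⟨⟨_, t8_4⟩,
    List.forall_mem_cons.2 ⟨⟨_, t8_5⟩,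
    List.forall_mem_cons.2 ⟨⟨_, t8_6⟩,
    List.forall_mem_cons.2 ⟨⟨_, t8_7⟩,
    List.forall_mem_cons.2 ⟨⟨_, t8_8⟩,
    List.forall_mem_cons.2 ⟨⟨_, t8_9⟩,
    List.forall_mem_cons.2 ⟨⟨_, t8_10⟩,
    List.forall_mem_cons.2 ⟨⟨_, t8_11⟩,
    List.forall_mem_cons.2 ⟨⟨_, t8_12⟩,
    List.forall_mem_cons.2 ⟨⟨_, t8_13⟩,
    List.forall_mem_cons.2 ⟨⟨_, t8_14⟩,
    List.forall_mem_cons.2 ⟨⟨_, t8_15⟩,
    List.forall_mem_cons.2 ⟨⟨_, t8_16⟩,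
    List.forall_mem_cons.2 ⟨⟨_, t8_17⟩,
    List.forall_mem_nil _⟩⟩⟩⟩⟩⟩⟩⟩⟩⟩⟩⟩⟩⟩⟩⟩⟩⟩

theorem st8_0 : StepTo 7 15 T8 L8 L7 0 := stepTo_zero _ _ _ _ _

theorem st8_1 : StepTo 7 15 T8 L8 L7 178 := Join.stepTo st8_0 s8_0 lenS8_0 rfl

theorem st8_2 : StepTo 7 15 T8 L8 L7 270 := Join.stepTo st8_1 s8_1 lenS8_1 rfl

theorem st8_3 : StepTo 7 15 T8 L8 L7 398 := Join.stepTo st8_2 s8_2 lenS8_2 rfl

theorem st8_4 : StepTo 7 15 T8 L8 L7 535 := Join.stepTo st8_3 s8_3 lenS8_3 rfl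

theorem st8_5 : StepTo 7 15 T8 L8 L7 645 := Join.stepTo st8_4 s8_4 lenS8_4 rfl

theorem st8_6 : StepTo 7 15 T8 L8 L7 778 := Join.stepTo st8_5 s8_5 lenS8_5 rfl

theorem st8_7 : StepTo 7 15 T8 L8 L7 892 := Join.stepTo st8_6 s8_6 lenS8_6 rfl

theorem st8_8 : StepTo 7 15 T8 L8 L7 1008 := Join.stepTo st8_7 s8_7 lenS8_7 rfl

theorem st8_9 : StepTo 7 15 T8 L8 L7 1126 := Join.stepTo st8_8 s8_8 lenS8_8 rfl

theorem st8_10 : StepTo 7 15 T8 L8 L7 1191 := Join.stepTo st8_9 s8_9 lenS8_9 rfl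

theorem st8_11 : StepTo 7 15 T8 L8 L7 1332 := Join.stepTo st8_10 s8_10 lenS8_10 rfl

theorem st8_12 : StepTo 7 15 T8 L8 L7 1445 := Join.stepTo st8_11 s8_11 lenS8_11 rfl

theorem st8_13 : StepTo 7 15 T8 L8 L7 1597 := Join.stepTo st8_12 s8_12 lenS8_12 rfl

theorem st8_14 : StepTo 7 15 T8 L8 L7 1782 := Join.stepTo st8_13 s8_13 lenS8_13 rfl

theorem st8_15 : StepTo 7 15 T8 L8 L7 1926 := Join.stepTo st8_14 s8_14 lenS8_14 rfl

theorem st8_16 : StepTo 7 15 T8 L8 L7 2069 := Join.stepTo st8_15 s8_15 lenS8_15 rfl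

theorem st8_17 : StepTo 7 15 T8 L8 L7 2238 := Join.stepTo st8_16 s8_16 lenS8_16 rfl

theorem st8_18 : StepTo 7 15 T8 L8 L7 2340 := Join.stepTo st8_17 s8_17 lenS8_17 rfl

theorem st8_19 : StepTo 7 15 T8 L8 L7 2468 := Join.stepTo st8_18 s8_18 lenS8_18 rfl

theorem st8_20 : StepTo 7 15 T8 L8 L7 2639 := Join.stepTo st8_19 s8_19 lenS8_19 rfl

theorem st8_21 : StepTo 7 15 T8 L8 L7 2814 := Join.stepTo st8_20 s8_20 lenS8_20 rfl

theorem st8_22 : StepTo 7 15 T8 L8 L7 2962 := Join.stepTo st8_21 s8_21 lenS8_21 rfl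

theorem st8_23 : StepTo 7 15 T8 L8 L7 3109 := Join.stepTo st8_22 s8_22 lenS8_22 rfl

theorem st8_24 : StepTo 7 15 T8 L8 L7 3215 := Join.stepTo st8_23 s8_23 lenS8_23 rfl

theorem st8_25 : StepTo 7 15 T8 L8 L7 3299 := Join.stepTo st8_24 s8_24 lenS8_24 rfl

theorem st8_26 : StepTo 7 15 T8 L8 L7 3387 := Join.stepTo st8_25 s8_25 lenS8_25 rfl

theorem st8_27 : StepTo 7 15 T8 L8 L7 3460 := Join.stepTo st8_26 s8_26 lenS8_26 rfl

theorem st8_28 : StepTo 7 15 T8 L8 L7 3592 := Join.stepTo st8_27 s8_27 lenS8_27 rfl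

theorem st8_29 : StepTo 7 15 T8 L8 L7 3702 := Join.stepTo st8_28 s8_28 lenS8_28 rfl

theorem chk8 : ChkOK 7 15 T8 L7 L8 := Join.chkOK_of cov7 st8_29

theorem tab9 : TabOK 9 lib T9 :=
  List.forall_mem_cons.2 ⟨⟨_, t9_0⟩,
    List.forall_mem_cons.2 ⟨⟨_, t9_1⟩,
    List.forall_mem_cons.2 ⟨⟨_, t9_2⟩,
    List.forall_mem_cons.2 ⟨⟨_, t9_3⟩,
    List.forall_mem_cons.2 ⟨⟨_, t9_4⟩,
    List.forall_mem_cons.2 ⟨⟨_, t9_5⟩,
    List.forall_mem_cons.2 ⟨⟨_, t9_6⟩,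
    List.forall_mem_cons.2 ⟨⟨_, t9_7⟩,
    List.forall_mem_cons.2 ⟨⟨_, t9_8⟩,
    List.forall_mem_cons.2 ⟨⟨_, t9_9⟩,
    List.forall_mem_cons.2 ⟨⟨_, t9_10⟩,
    List.forall_mem_cons.2 ⟨⟨_, t9_11⟩,
    List.forall_mem_cons.2 ⟨⟨_, t9_12⟩,
    List.forall_mem_cons.2 ⟨⟨_, t9_13⟩,
    List.forall_mem_cons.2 ⟨⟨_, t9_14⟩,
    List.forall_mem_cons.2 ⟨⟨_, t9_15⟩,
    List.forall_mem_cons.2 ⟨⟨_, t9_16⟩,
    List.forall_mem_cons.2 ⟨⟨_, t9_17⟩,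
    List.forall_mem_cons.2 ⟨⟨_, t9_18⟩,
    List.forall_mem_cons.2 ⟨⟨_, t9_19⟩,
    List.forall_mem_nil _⟩⟩⟩⟩⟩⟩⟩⟩⟩⟩⟩⟩⟩⟩⟩⟩⟩⟩⟩⟩

theorem st9_0 : StepTo 8 18 T9 L9 L8 0 := stepTo_zero _ _ _ _ _

theorem st9_1 : StepTo 8 18 T9 L9 L8 94 := Join.stepTo st9_0 s9_0 lenS9_0 rfl

theorem st9_2 : StepTo 8 18 T9 L9 L8 186 := Join.stepTo st9_1 s9_1 lenS9_1 rfl

theorem st9_3 : StepTo 8 18 T9 L9 L8 268 := Join.stepTo st9_2 s9_2 lenS9_2 rfl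

theorem st9_4 : StepTo 8 18 T9 L9 L8 399 := Join.stepTo st9_3 s9_3 lenS9_3 rfl

theorem st9_5 : StepTo 8 18 T9 L9 L8 525 := Join.stepTo st9_4 s9_4 lenS9_4 rfl

theorem st9_6 : StepTo 8 18 T9 L9 L8 628 := Join.stepTo st9_5 s9_5 lenS9_5 rfl

theorem st9_7 : StepTo 8 18 T9 L9 L8 763 := Join.stepTo st9_6 s9_6 lenS9_6 rfl

theorem st9_8 : StepTo 8 18 T9 L9 L8 881 := Join.stepTo st9_7 s9_7 lenS9_7 rfl

theorem st9_9 : StepTo 8 18 T9 L9 L8 1030 := Join.stepTo st9_8 s9_8 lenS9_8 rfl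

theorem st9_10 : StepTo 8 18 T9 L9 L8 1142 := Join.stepTo st9_9 s9_9 lenS9_9 rfl

theorem st9_11 : StepTo 8 18 T9 L9 L8 1277 := Join.stepTo st9_10 s9_10 lenS9_10 rfl

theorem st9_12 : StepTo 8 18 T9 L9 L8 1394 := Join.stepTo st9_11 s9_11 lenS9_11 rfl

theorem st9_13 : StepTo 8 18 T9 L9 L8 1546 := Join.stepTo st9_12 s9_12 lenS9_12 rfl

theorem st9_14 : StepTo 8 18 T9 L9 L8 1650 := Join.stepTo st9_13 s9_13 lenS9_13 rfl

theorem st9_15 : StepTo 8 18 T9 L9 L8 1731 := Join.stepTo st9_14 s9_14 lenS9_14 rfl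

theorem st9_16 : StepTo 8 18 T9 L9 L8 1802 := Join.stepTo st9_15 s9_15 lenS9_15 rfl

theorem st9_17 : StepTo 8 18 T9 L9 L8 1867 := Join.stepTo st9_16 s9_16 lenS9_16 rfl

theorem st9_18 : StepTo 8 18 T9 L9 L8 1922 := Join.stepTo st9_17 s9_17 lenS9_17 rfl

theorem st9_19 : StepTo 8 18 T9 L9 L8 2064 := Join.stepTo st9_18 s9_18 lenS9_18 rfl

theorem st9_20 : StepTo 8 18 T9 L9 L8 2220 := Join.stepTo st9_19 s9_19 lenS9_19 rfl

theorem st9_21 : StepTo 8 18 T9 L9 L8 2411 := Join.stepTo st9_20 s9_20 lenS9_20 rfl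

theorem st9_22 : StepTo 8 18 T9 L9 L8 2552 := Join.stepTo st9_21 s9_21 lenS9_21 rfl

theorem st9_23 : StepTo 8 18 T9 L9 L8 2686 := Join.stepTo st9_22 s9_22 lenS9_22 rfl

theorem st9_24 : StepTo 8 18 T9 L9 L8 2815 := Join.stepTo st9_23 s9_23 lenS9_23 rfl

theorem st9_25 : StepTo 8 18 T9 L9 L8 2946 := Join.stepTo st9_24 s9_24 lenS9_24 rfl

theorem st9_26 : StepTo 8 18 T9 L9 L8 3079 := Join.stepTo st9_25 s9_25 lenS9_25 rfl

theorem st9_27 : StepTo 8 18 T9 L9 L8 3181 := Join.stepTo st9_26 s9_26 lenS9_26 rfl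

theorem st9_28 : StepTo 8 18 T9 L9 L8 3346 := Join.stepTo st9_27 s9_27 lenS9_27 rfl

theorem st9_29 : StepTo 8 18 T9 L9 L8 3446 := Join.stepTo st9_28 s9_28 lenS9_28 rfl

theorem st9_30 : StepTo 8 18 T9 L9 L8 3539 := Join.stepTo st9_29 s9_29 lenS9_29 rfl

theorem st9_31 : StepTo 8 18 T9 L9 L8 3700 := Join.stepTo st9_30 s9_30 lenS9_30 rfl

theorem st9_32 : StepTo 8 18 T9 L9 L8 3867 := Join.stepTo st9_31 s9_31 lenS9_31 rfl

theorem st9_33 : StepTo 8 18 T9 L9 L8 3967 := Join.stepTo st9_32 s9_32 lenS9_32 rfl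

theorem st9_34 : StepTo 8 18 T9 L9 L8 4117 := Join.stepTo st9_33 s9_33 lenS9_33 rfl

theorem st9_35 : StepTo 8 18 T9 L9 L8 4332 := Join.stepTo st9_34 s9_34 lenS9_34 rfl

theorem st9_36 : StepTo 8 18 T9 L9 L8 4513 := Join.stepTo st9_35 s9_35 lenS9_35 rfl

theorem st9_37 : StepTo 8 18 T9 L9 L8 4633 := Join.stepTo st9_36 s9_36 lenS9_36 rfl

theorem st9_38 : StepTo 8 18 T9 L9 L8 4792 := Join.stepTo st9_37 s9_37 lenS9_37 rfl

theorem st9_39 : StepTo 8 18 T9 L9 L8 4952 := Join.stepTo st9_38 s9_38 lenS9_38 rfl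

theorem st9_40 : StepTo 8 18 T9 L9 L8 5117 := Join.stepTo st9_39 s9_39 lenS9_39 rfl

theorem st9_41 : StepTo 8 18 T9 L9 L8 5248 := Join.stepTo st9_40 s9_40 lenS9_40 rfl

theorem st9_42 : StepTo 8 18 T9 L9 L8 5333 := Join.stepTo st9_41 s9_41 lenS9_41 rfl

theorem st9_43 : StepTo 8 18 T9 L9 L8 5417 := Join.stepTo st9_42 s9_42 lenS9_42 rfl

theorem chk9 : ChkOK 8 18 T9 L8 L9 := Join.chkOK_of cov8 st9_43

theorem tab10 : TabOK 10 lib T10 :=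
  List.forall_mem_cons.2 ⟨⟨_, t10_0⟩,
    List.forall_mem_cons.2 ⟨⟨_, t10_1⟩,
    List.forall_mem_cons.2 ⟨⟨_, t10_2⟩,
    List.forall_mem_nil _⟩⟩⟩

theorem st10_0 : StepTo 9 22 T10 L10 L9 0 := stepTo_zero _ _ _ _ _

theorem st10_1 : StepTo 9 22 T10 L10 L9 595 := Join.stepTo st10_0 s10_0 lenS10_0 rfl

theorem st10_2 : StepTo 9 22 T10 L10 L9 1202 := Join.stepTo st10_1 s10_1 lenS10_1 rfl

theorem st10_3 : StepTo 9 22 T10 L10 L9 1770 := Join.stepTo st10_2 s10_2 lenS10_2 rfl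

theorem st10_4 : StepTo 9 22 T10 L10 L9 2375 := Join.stepTo st10_3 s10_3 lenS10_3 rfl

theorem st10_5 : StepTo 9 22 T10 L10 L9 2963 := Join.stepTo st10_4 s10_4 lenS10_4 rfl

theorem st10_6 : StepTo 9 22 T10 L10 L9 3568 := Join.stepTo st10_5 s10_5 lenS10_5 rfl

theorem chk10 : ChkOK 9 22 T10 L9 L10 := Join.chkOK_of cov9 st10_6

theorem idata : IData K2 RTwo.DP.L7 lib T8 T9 T10 L7 L8 L9 :=
  ⟨Join.small2, libok, filfact, tab8, tab9, tab10, chk8, chk9, chk10,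
    ⟨3702, scan7, cov7⟩, ⟨5417, scan8, cov8⟩, ⟨3568, scan9, cov9⟩⟩

end RTwo.DC
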