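import Pool.Agent.Helper45.RT.Join
import Pool.Agent.Helper45.RTD.D10S0
import Pool.Agent.Helper45.RTD.D10TC0
import Pool.Agent.Helper45.RTD.D7F
import Pool.Agent.Helper45.RTD.D7TC0
import Pool.Agent.Helper45.RTD.D8S0
import Pool.Agent.Helper45.RTD.D8S1
import Pool.Agent.Helper45.RTD.D8S2
import Pool.Agent.Helper45.RTD.D8S3
import Pool.Agent.Helper45.RTD.D8S4
import Pool.Agent.Helper45.RTD.D8S5
import Pool.Agent.Helper45.RTD.D8S6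
import Pool.Agent.Helper45.RTD.D8S7
import Pool.Agent.Helper45.RTD.D8S8
import Pool.Agent.Helper45.RTD.D8TC0
import Pool.Agent.Helper45.RTD.D8TC1
import Pool.Agent.Helper45.RTD.D8TC2
import Pool.Agent.Helper45.RTD.D8TC3
import Pool.Agent.Helper45.RTD.D9S0
import Pool.Agent.Helper45.RTD.D9S1
import Pool.Agent.Helper45.RTD.D9S2
import Pool.Agent.Helper45.RTD.D9S3
import Pool.Agent.Helper45.RTD.D9S4
import Pool.Agent.Helper45.RTD.D9S5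
import Pool.Agent.Helper45.RTD.D9S6
import Pool.Agent.Helper45.RTD.D9TC0
import Pool.Agent.Helper45.RTD.D9TC1
import Pool.Agent.Helper45.RTD.D9TC2
import Pool.Agent.Helper45.RTD.D9TC3
import Pool.Agent.Helper45.RTD.DLibC0
import Pool.Agent.Helper45.RTD.DLibC1
import Pool.Agent.Helper45.RTD.DLibC2
import Pool.Agent.Helper45.RTD.DLibC3
import Pool.Agent.Helper45.RTD.DQ

/-!
Joining the pieces of the data of chain D.
-/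

set_option autoImplicit false

namespace RTwo.DD

open RTwo.Glue

theorem lt_0 : LibTo K3 lib 0 := libTo_zero _ _

theorem lt_1 : LibTo K3 lib 220 := Join.libTo lt_0 c0 lenC0 rfl

theorem lt_2 : LibTo K3 lib 440 := Join.libTo lt_1 c1 lenC1 rfl

theorem lt_3 : LibTo K3 lib 660 := Join.libTo lt_2 c2 lenC2 rfl

theorem lt_4 : LibTo K3 lib 880 := Join.libTo lt_3 c3 lenC3 rfl

theorem lt_5 : LibTo K3 lib 1100 := Join.libTo lt_4 c4 lenC4 rfl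

theorem lt_6 : LibTo K3 lib 1320 := Join.libTo lt_5 c5 lenC5 rfl

theorem lt_7 : LibTo K3 lib 1540 := Join.libTo lt_6 c6 lenC6 rfl

theorem lt_8 : LibTo K3 lib 1760 := Join.libTo lt_7 c7 lenC7 rfl

theorem lt_9 : LibTo K3 lib 1980 := Join.libTo lt_8 c8 lenC8 rfl

theorem lt_10 : LibTo K3 lib 2200 := Join.libTo lt_9 c9 lenC9 rfl

theorem lt_11 : LibTo K3 lib 2420 := Join.libTo lt_10 c10 lenC10 rfl

theorem lt_12 : LibTo K3 lib 2640 := Join.libTo lt_11 c11 lenC11 rfl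

theorem lt_13 : LibTo K3 lib 2860 := Join.libTo lt_12 c12 lenC12 rfl

theorem lt_14 : LibTo K3 lib 3080 := Join.libTo lt_13 c13 lenC13 rfl

theorem lt_15 : LibTo K3 lib 3300 := Join.libTo lt_14 c14 lenC14 rfl

theorem lt_16 : LibTo K3 lib 3520 := Join.libTo lt_15 c15 lenC15 rfl

theorem lt_17 : LibTo K3 lib 3740 := Join.libTo lt_16 c16 lenC16 rfl

theorem lt_18 : LibTo K3 lib 3960 := Join.libTo lt_17 c17 lenC17 rfl

theorem lt_19 : LibTo K3 lib 4180 := Join.libTo lt_18 c18 lenC18 rfl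

theorem lt_20 : LibTo K3 lib 4400 := Join.libTo lt_19 c19 lenC19 rfl

theorem lt_21 : LibTo K3 lib 4620 := Join.libTo lt_20 c20 lenC20 rfl

theorem lt_22 : LibTo K3 lib 4840 := Join.libTo lt_21 c21 lenC21 rfl

theorem lt_23 : LibTo K3 lib 5060 := Join.libTo lt_22 c22 lenC22 rfl

theorem lt_24 : LibTo K3 lib 5280 := Join.libTo lt_23 c23 lenC23 rfl

theorem lt_25 : LibTo K3 lib 5500 := Join.libTo lt_24 c24 lenC24 rfl

theorem lt_26 : LibTo K3 lib 5720 := Join.libTo lt_25 c25 lenC25 rfl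

theorem lt_27 : LibTo K3 lib 5940 := Join.libTo lt_26 c26 lenC26 rfl

theorem lt_28 : LibTo K3 lib 6160 := Join.libTo lt_27 c27 lenC27 rfl

theorem lt_29 : LibTo K3 lib 6380 := Join.libTo lt_28 c28 lenC28 rfl

theorem lt_30 : LibTo K3 lib 6600 := Join.libTo lt_29 c29 lenC29 rfl

theorem lt_31 : LibTo K3 lib 6820 := Join.libTo lt_30 c30 lenC30 rfl

theorem lt_32 : LibTo K3 lib 7009 := Join.libTo lt_31 c31 lenC31 rfl

theorem libok : LibOK K3 lib := Join.libOK_of covlib lt_32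

theorem tab7 : TabOK 7 lib T7 :=
  List.forall_mem_cons.2 ⟨⟨_, t7_0⟩,
    List.forall_mem_cons.2 ⟨⟨_, t7_1⟩,
    List.forall_mem_cons.2 ⟨⟨_, t7_2⟩,
    List.forall_mem_nil _⟩⟩⟩

theorem ft_0 : FiltTo (IOK K3) L7 RTwo.DP.L7 0 := filtTo_zero _ _ _

theorem ft_1 : FiltTo (IOK K3) L7 RTwo.DP.L7 2000 :=
  Join.filtTo Join.small3 libok tab7 ft_0 f0 rfl

theorem ft_2 : FiltTo (IOK K3) L7 RTwo.DP.L7 4000 :=
  Join.filtTo Join.small3 libok tab7 ft_1 f1 rfl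

theorem ft_3 : FiltTo (IOK K3) L7 RTwo.DP.L7 6000 :=
  Join.filtTo Join.small3 libok tab7 ft_2 f2 rfl

theorem ft_4 : FiltTo (IOK K3) L7 RTwo.DP.L7 8000 :=
  Join.filtTo Join.small3 libok tab7 ft_3 f3 rfl

theorem ft_5 : FiltTo (IOK K3) L7 RTwo.DP.L7 10000 :=
  Join.filtTo Join.small3 libok tab7 ft_4 f4 rfl

theorem ft_6 : FiltTo (IOK K3) L7 RTwo.DP.L7 11158 :=
  Join.filtTo Join.small3 libok tab7 ft_5 f5 rfl

theorem filfact : FiltFact K3 RTwo.DP.L7 L7 := Join.filtFact RTwo.DP.cov7 ft_6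

theorem tab8 : TabOK 8 lib T8 :=
  List.forall_mem_cons.2 ⟨⟨_, t8_0⟩,
    List.forall_mem_cons.2 ⟨⟨_, t8_1⟩,
    List.forall_mem_cons.2 ⟨⟨_, t8_2⟩,
    List.forall_mem_cons.2 ⟨⟨_, t8_3⟩,
    List.forall_mem_cons.2 ⟨⟨_, t8_4⟩,
    List.forall_mem_cons.2 ⟨⟨_, t8_5⟩,
    List.forall_mem_cons.2 ⟨⟨_, t8_6⟩,
    List.forall_mem_cons.2 ⟨⟨_, t8_7⟩,
    List.forall_mem_cons.2 ⟨⟨_, t8_8⟩,
    List.forall_mem_cons.2 ⟨⟨_, t8_9⟩,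
    List.forall_mem_cons.2 ⟨⟨_, t8_10⟩,
    List.forall_mem_cons.2 ⟨⟨_, t8_11⟩,
    List.forall_mem_cons.2 ⟨⟨_, t8_12⟩,
    List.forall_mem_cons.2 ⟨⟨_, t8_13⟩,
    List.forall_mem_cons.2 ⟨⟨_, t8_14⟩,
    List.forall_mem_cons.2 ⟨⟨_, t8_15⟩,
    List.forall_mem_cons.2 ⟨⟨_, t8_16⟩,
    List.forall_mem_cons.2 ⟨⟨_, t8_17⟩,
    List.forall_mem_cons.2 ⟨⟨_, t8_18⟩,
    List.forall_mem_cons.2 ⟨⟨_, t8_19⟩,
    List.forall_mem_cons.2 ⟨⟨_, t8_20⟩,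
    List.forall_mem_cons.2 ⟨⟨_, t8_21⟩,
    List.forall_mem_cons.2 ⟨⟨_, t8_22⟩,
    List.forall_mem_cons.2 ⟨⟨_, t8_23⟩,
    List.forall_mem_nil _⟩⟩⟩⟩⟩⟩⟩⟩⟩⟩⟩⟩⟩⟩⟩⟩⟩⟩⟩⟩⟩⟩⟩⟩

theorem st8_0 : StepTo 7 15 T8 L8 L7 0 := stepTo_zero _ _ _ _ _

theorem st8_1 : StepTo 7 15 T8 L8 L7 90 := Join.stepTo st8_0 s8_0 lenS8_0 rfl

theorem st8_2 : StepTo 7 15 T8 L8 L7 224 := Join.stepTo st8_1 s8_1 lenS8_1 rfl

theorem st8_3 : StepTo 7 15 T8 L8 L7 330 := Join.stepTo st8_2 s8_2 lenS8_2 rfl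

theorem st8_4 : StepTo 7 15 T8 L8 L7 489 := Join.stepTo st8_3 s8_3 lenS8_3 rfl

theorem st8_5 : StepTo 7 15 T8 L8 L7 621 := Join.stepTo st8_4 s8_4 lenS8_4 rfl

theorem st8_6 : StepTo 7 15 T8 L8 L7 832 := Join.stepTo st8_5 s8_5 lenS8_5 rfl

theorem st8_7 : StepTo 7 15 T8 L8 L7 1059 := Join.stepTo st8_6 s8_6 lenS8_6 rfl

theorem st8_8 : StepTo 7 15 T8 L8 L7 1209 := Join.stepTo st8_7 s8_7 lenS8_7 rfl

theorem st8_9 : StepTo 7 15 T8 L8 L7 1339 := Join.stepTo st8_8 s8_8 lenS8_8 rfl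

theorem st8_10 : StepTo 7 15 T8 L8 L7 1462 := Join.stepTo st8_9 s8_9 lenS8_9 rfl

theorem st8_11 : StepTo 7 15 T8 L8 L7 1584 := Join.stepTo st8_10 s8_10 lenS8_10 rfl

theorem st8_12 : StepTo 7 15 T8 L8 L7 1738 := Join.stepTo st8_11 s8_11 lenS8_11 rfl

theorem st8_13 : StepTo 7 15 T8 L8 L7 1831 := Join.stepTo st8_12 s8_12 lenS8_12 rfl

theorem st8_14 : StepTo 7 15 T8 L8 L7 1953 := Join.stepTo st8_13 s8_13 lenS8_13 rfl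

theorem st8_15 : StepTo 7 15 T8 L8 L7 2025 := Join.stepTo st8_14 s8_14 lenS8_14 rfl

theorem st8_16 : StepTo 7 15 T8 L8 L7 2106 := Join.stepTo st8_15 s8_15 lenS8_15 rfl

theorem st8_17 : StepTo 7 15 T8 L8 L7 2188 := Join.stepTo st8_16 s8_16 lenS8_16 rfl

theorem st8_18 : StepTo 7 15 T8 L8 L7 2267 := Join.stepTo st8_17 s8_17 lenS8_17 rfl

theorem st8_19 : StepTo 7 15 T8 L8 L7 2408 := Join.stepTo st8_18 s8_18 lenS8_18 rfl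

theorem st8_20 : StepTo 7 15 T8 L8 L7 2518 := Join.stepTo st8_19 s8_19 lenS8_19 rfl

theorem st8_21 : StepTo 7 15 T8 L8 L7 2613 := Join.stepTo st8_20 s8_20 lenS8_20 rfl

theorem st8_22 : StepTo 7 15 T8 L8 L7 2688 := Join.stepTo st8_21 s8_21 lenS8_21 rfl

theorem st8_23 : StepTo 7 15 T8 L8 L7 2771 := Join.stepTo st8_22 s8_22 lenS8_22 rfl

theorem st8_24 : StepTo 7 15 T8 L8 L7 2864 := Join.stepTo st8_23 s8_23 lenS8_23 rfl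

theorem st8_25 : StepTo 7 15 T8 L8 L7 2921 := Join.stepTo st8_24 s8_24 lenS8_24 rfl

theorem st8_26 : StepTo 7 15 T8 L8 L7 3051 := Join.stepTo st8_25 s8_25 lenS8_25 rfl

theorem st8_27 : StepTo 7 15 T8 L8 L7 3149 := Join.stepTo st8_26 s8_26 lenS8_26 rfl

theorem chk8 : ChkOK 7 15 T8 L7 L8 := Join.chkOK_of cov7 st8_27

theorem tab9 : TabOK 9 lib T9 :=
  List.forall_mem_cons.2 ⟨⟨_, t9_0⟩,
    List.forall_mem_cons.2 ⟨⟨_, t9_1⟩,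
    List.forall_mem_cons.2 ⟨⟨_, t9_2⟩,
    List.forall_mem_cons.2 ⟨⟨_, t9_3⟩,
    List.forall_mem_cons.2 ⟨⟨_, t9_4⟩,
    List.forall_mem_cons.2 ⟨⟨_, t9_5⟩,
    List.forall_mem_cons.2 ⟨⟨_, t9_6⟩,
    List.forall_mem_cons.2 ⟨⟨_, t9_7⟩,
    List.forall_mem_cons.2 ⟨⟨_, t9_8⟩,
    List.forall_mem_cons.2 ⟨⟨_, t9_9⟩,
    List.forall_mem_cons.2 ⟨⟨_, t9_10⟩,
    List.forall_mem_cons.2 ⟨⟨_, t9_11⟩,
    List.forall_mem_cons.2 ⟨⟨_, t9_12⟩,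
    List.forall_mem_cons.2 ⟨⟨_, t9_13⟩,
    List.forall_mem_cons.2 ⟨⟨_, t9_14⟩,
    List.forall_mem_cons.2 ⟨⟨_, t9_15⟩,
    List.forall_mem_cons.2 ⟨⟨_, t9_16⟩,
    List.forall_mem_cons.2 ⟨⟨_, t9_17⟩,
    List.forall_mem_cons.2 ⟨⟨_, t9_18⟩,
    List.forall_mem_nil _⟩⟩⟩⟩⟩⟩⟩⟩⟩⟩⟩⟩⟩⟩⟩⟩⟩⟩⟩

theorem st9_0 : StepTo 8 18 T9 L9 L8 0 := stepTo_zero _ _ _ _ _

theorem st9_1 : StepTo 8 18 T9 L9 L8 66 := Join.stepTo st9_0 s9_0 lenS9_0 rfl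

theorem st9_2 : StepTo 8 18 T9 L9 L8 164 := Join.stepTo st9_1 s9_1 lenS9_1 rfl

theorem st9_3 : StepTo 8 18 T9 L9 L8 287 := Join.stepTo st9_2 s9_2 lenS9_2 rfl

theorem st9_4 : StepTo 8 18 T9 L9 L8 461 := Join.stepTo st9_3 s9_3 lenS9_3 rfl

theorem st9_5 : StepTo 8 18 T9 L9 L8 575 := Join.stepTo st9_4 s9_4 lenS9_4 rfl

theorem st9_6 : StepTo 8 18 T9 L9 L8 655 := Join.stepTo st9_5 s9_5 lenS9_5 rfl

theorem st9_7 : StepTo 8 18 T9 L9 L8 753 := Join.stepTo st9_6 s9_6 lenS9_6 rfl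

theorem st9_8 : StepTo 8 18 T9 L9 L8 841 := Join.stepTo st9_7 s9_7 lenS9_7 rfl

theorem st9_9 : StepTo 8 18 T9 L9 L8 938 := Join.stepTo st9_8 s9_8 lenS9_8 rfl

theorem st9_10 : StepTo 8 18 T9 L9 L8 1084 := Join.stepTo st9_9 s9_9 lenS9_9 rfl

theorem st9_11 : StepTo 8 18 T9 L9 L8 1185 := Join.stepTo st9_10 s9_10 lenS9_10 rfl

theorem st9_12 : StepTo 8 18 T9 L9 L8 1310 := Join.stepTo st9_11 s9_11 lenS9_11 rfl

theorem st9_13 : StepTo 8 18 T9 L9 L8 1386 := Join.stepTo st9_12 s9_12 lenS9_12 rfl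

theorem st9_14 : StepTo 8 18 T9 L9 L8 1462 := Join.stepTo st9_13 s9_13 lenS9_13 rfl

theorem st9_15 : StepTo 8 18 T9 L9 L8 1517 := Join.stepTo st9_14 s9_14 lenS9_14 rfl

theorem st9_16 : StepTo 8 18 T9 L9 L8 1584 := Join.stepTo st9_15 s9_15 lenS9_15 rfl

theorem st9_17 : StepTo 8 18 T9 L9 L8 1643 := Join.stepTo st9_16 s9_16 lenS9_16 rfl

theorem st9_18 : StepTo 8 18 T9 L9 L8 1704 := Join.stepTo st9_17 s9_17 lenS9_17 rfl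

theorem st9_19 : StepTo 8 18 T9 L9 L8 1764 := Join.stepTo st9_18 s9_18 lenS9_18 rfl

theorem st9_20 : StepTo 8 18 T9 L9 L8 1832 := Join.stepTo st9_19 s9_19 lenS9_19 rfl

theorem chk9 : ChkOK 8 18 T9 L8 L9 := Join.chkOK_of cov8 st9_20

theorem tab10 : TabOK 10 lib T10 :=
  List.forall_mem_cons.2 ⟨⟨_, t10_0⟩,
    List.forall_mem_cons.2 ⟨⟨_, t10_1⟩,
    List.forall_mem_nil _⟩⟩

theorem st10_0 : StepTo 9 22 T10 L10 L9 0 := stepTo_zero _ _ _ _ _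

theorem st10_1 : StepTo 9 22 T10 L10 L9 317 := Join.stepTo st10_0 s10_0 lenS10_0 rfl

theorem st10_2 : StepTo 9 22 T10 L10 L9 599 := Join.stepTo st10_1 s10_1 lenS10_1 rfl

theorem chk10 : ChkOK 9 22 T10 L9 L10 := Join.chkOK_of cov9 st10_2

theorem idata : IData K3 RTwo.DP.L7 lib T8 T9 T10 L7 L8 L9 :=
  ⟨Join.small3, libok, filfact, tab8, tab9, tab10, chk8, chk9, chk10,
    ⟨3149, scan7, cov7⟩, ⟨1832, scan8, cov8⟩, ⟨599, scan9, cov9⟩⟩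

end RTwo.DD
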