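import Pool.Agent.Helper45.RTD.E7L
import Pool.Agent.Helper45.RTD.E8L
import Pool.Agent.Helper45.RTD.E9L

set_option maxRecDepth 100000
set_option autoImplicit false

namespace RTwo.DE

theorem scan7 : scan 7 16 L7 1285 0 = true := by decide +kernel

theorem scan8 : scan 8 18 L8 740 0 = true := by decide +kernel

theorem scan9 : scan 9 20 L9 435 0 = true := by decide +kernel


end RTwo.DE
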