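import Pool.Agent.Helper45.RT.Join
import Pool.Agent.Helper45.RTD.F10S0
import Pool.Agent.Helper45.RTD.F10TC0
import Pool.Agent.Helper45.RTD.F7F
import Pool.Agent.Helper45.RTD.F7TC0
import Pool.Agent.Helper45.RTD.F8S0
import Pool.Agent.Helper45.RTD.F8S1
import Pool.Agent.Helper45.RTD.F8S2
import Pool.Agent.Helper45.RTD.F8S3
import Pool.Agent.Helper45.RTD.F8S4
import Pool.Agent.Helper45.RTD.F8TC0
import Pool.Agent.Helper45.RTD.F8TC1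
import Pool.Agent.Helper45.RTD.F8TC2
import Pool.Agent.Helper45.RTD.F8TC3
import Pool.Agent.Helper45.RTD.F9S0
import Pool.Agent.Helper45.RTD.F9S1
import Pool.Agent.Helper45.RTD.F9S2
import Pool.Agent.Helper45.RTD.F9S3
import Pool.Agent.Helper45.RTD.F9S4
import Pool.Agent.Helper45.RTD.F9TC0
import Pool.Agent.Helper45.RTD.F9TC1
import Pool.Agent.Helper45.RTD.F9TC2
import Pool.Agent.Helper45.RTD.FLibC0
import Pool.Agent.Helper45.RTD.FLibC1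
import Pool.Agent.Helper45.RTD.FLibC2
import Pool.Agent.Helper45.RTD.FQ

/-!
Joining the pieces of the data of chain F.
-/

set_option autoImplicit false

namespace RTwo.DF

open RTwo.Glue

theorem lt_0 : LibTo K5 lib 0 := libTo_zero _ _

theorem lt_1 : LibTo K5 lib 220 := Join.libTo lt_0 c0 lenC0 rfl

theorem lt_2 : LibTo K5 lib 440 := Join.libTo lt_1 c1 lenC1 rfl

theorem lt_3 : LibTo K5 lib 660 := Join.libTo lt_2 c2 lenC2 rfl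

theorem lt_4 : LibTo K5 lib 880 := Join.libTo lt_3 c3 lenC3 rfl

theorem lt_5 : LibTo K5 lib 1100 := Join.libTo lt_4 c4 lenC4 rfl

theorem lt_6 : LibTo K5 lib 1320 := Join.libTo lt_5 c5 lenC5 rfl

theorem lt_7 : LibTo K5 lib 1540 := Join.libTo lt_6 c6 lenC6 rfl

theorem lt_8 : LibTo K5 lib 1760 := Join.libTo lt_7 c7 lenC7 rfl

theorem lt_9 : LibTo K5 lib 1980 := Join.libTo lt_8 c8 lenC8 rfl

theorem lt_10 : LibTo K5 lib 2200 := Join.libTo lt_9 c9 lenC9 rfl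

theorem lt_11 : LibTo K5 lib 2420 := Join.libTo lt_10 c10 lenC10 rfl

theorem lt_12 : LibTo K5 lib 2640 := Join.libTo lt_11 c11 lenC11 rfl

theorem lt_13 : LibTo K5 lib 2860 := Join.libTo lt_12 c12 lenC12 rfl

theorem lt_14 : LibTo K5 lib 3080 := Join.libTo lt_13 c13 lenC13 rfl

theorem lt_15 : LibTo K5 lib 3300 := Join.libTo lt_14 c14 lenC14 rfl

theorem lt_16 : LibTo K5 lib 3520 := Join.libTo lt_15 c15 lenC15 rfl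

theorem lt_17 : LibTo K5 lib 3740 := Join.libTo lt_16 c16 lenC16 rfl

theorem lt_18 : LibTo K5 lib 3960 := Join.libTo lt_17 c17 lenC17 rfl

theorem lt_19 : LibTo K5 lib 4180 := Join.libTo lt_18 c18 lenC18 rfl

theorem lt_20 : LibTo K5 lib 4209 := Join.libTo lt_19 c19 lenC19 rfl

theorem libok : LibOK K5 lib := Join.libOK_of covlib lt_20

theorem tab7 : TabOK 7 lib T7 :=
  List.forall_mem_cons.2 ⟨⟨_, t7_0⟩,
    List.forall_mem_cons.2 ⟨⟨_, t7_1⟩,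
    List.forall_mem_nil _⟩⟩

theorem ft_0 : FiltTo (IOK K5) L7 RTwo.DP.L7 0 := filtTo_zero _ _ _

theorem ft_1 : FiltTo (IOK K5) L7 RTwo.DP.L7 2000 :=
  Join.filtTo Join.small5 libok tab7 ft_0 f0 rfl

theorem ft_2 : FiltTo (IOK K5) L7 RTwo.DP.L7 4000 :=
  Join.filtTo Join.small5 libok tab7 ft_1 f1 rfl

theorem ft_3 : FiltTo (IOK K5) L7 RTwo.DP.L7 6000 :=
  Join.filtTo Join.small5 libok tab7 ft_2 f2 rfl

theorem ft_4 : FiltTo (IOK K5) L7 RTwo.DP.L7 8000 :=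
  Join.filtTo Join.small5 libok tab7 ft_3 f3 rfl

theorem ft_5 : FiltTo (IOK K5) L7 RTwo.DP.L7 10000 :=
  Join.filtTo Join.small5 libok tab7 ft_4 f4 rfl

theorem ft_6 : FiltTo (IOK K5) L7 RTwo.DP.L7 11158 :=
  Join.filtTo Join.small5 libok tab7 ft_5 f5 rfl

theorem filfact : FiltFact K5 RTwo.DP.L7 L7 := Join.filtFact RTwo.DP.cov7 ft_6

theorem tab8 : TabOK 8 lib T8 :=
  List.forall_mem_cons.2 ⟨⟨_, t8_0⟩,
    List.forall_mem_cons.2 ⟨⟨_, t8_1⟩,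
    List.forall_mem_cons.2 ⟨⟨_, t8_2⟩,
    List.forall_mem_cons.2 ⟨⟨_, t8_3⟩,
    List.forall_mem_cons.2 ⟨⟨_, t8_4⟩,
    List.forall_mem_cons.2 ⟨⟨_, t8_5⟩,
    List.forall_mem_cons.2 ⟨⟨_, t8_6⟩,
    List.forall_mem_cons.2 ⟨⟨_, t8_7⟩,
    List.forall_mem_cons.2 ⟨⟨_, t8_8⟩,
    List.forall_mem_cons.2 ⟨⟨_, t8_9⟩,
    List.forall_mem_cons.2 ⟨⟨_, t8_10⟩,
    List.forall_mem_cons.2 ⟨⟨_, t8_11⟩,
    List.forall_mem_cons.2 ⟨⟨_, t8_12⟩,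
    List.forall_mem_cons.2 ⟨⟨_, t8_13⟩,
    List.forall_mem_cons.2 ⟨⟨_, t8_14⟩,
    List.forall_mem_cons.2 ⟨⟨_, t8_15⟩,
    List.forall_mem_cons.2 ⟨⟨_, t8_16⟩,
    List.forall_mem_cons.2 ⟨⟨_, t8_17⟩,
    List.forall_mem_cons.2 ⟨⟨_, t8_18⟩,
    List.forall_mem_cons.2 ⟨⟨_, t8_19⟩,
    List.forall_mem_nil _⟩⟩⟩⟩⟩⟩⟩⟩⟩⟩⟩⟩⟩⟩⟩⟩⟩⟩⟩⟩

theorem st8_0 : StepTo 7 15 T8 L8 L7 0 := stepTo_zero _ _ _ _ _

theorem st8_1 : StepTo 7 15 T8 L8 L7 94 := Join.stepTo st8_0 s8_0 lenS8_0 rfl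

theorem st8_2 : StepTo 7 15 T8 L8 L7 192 := Join.stepTo st8_1 s8_1 lenS8_1 rfl

theorem st8_3 : StepTo 7 15 T8 L8 L7 258 := Join.stepTo st8_2 s8_2 lenS8_2 rfl

theorem st8_4 : StepTo 7 15 T8 L8 L7 383 := Join.stepTo st8_3 s8_3 lenS8_3 rfl

theorem st8_5 : StepTo 7 15 T8 L8 L7 492 := Join.stepTo st8_4 s8_4 lenS8_4 rfl

theorem st8_6 : StepTo 7 15 T8 L8 L7 549 := Join.stepTo st8_5 s8_5 lenS8_5 rfl

theorem st8_7 : StepTo 7 15 T8 L8 L7 603 := Join.stepTo st8_6 s8_6 lenS8_6 rfl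

theorem st8_8 : StepTo 7 15 T8 L8 L7 665 := Join.stepTo st8_7 s8_7 lenS8_7 rfl

theorem st8_9 : StepTo 7 15 T8 L8 L7 729 := Join.stepTo st8_8 s8_8 lenS8_8 rfl

theorem st8_10 : StepTo 7 15 T8 L8 L7 860 := Join.stepTo st8_9 s8_9 lenS8_9 rfl

theorem st8_11 : StepTo 7 15 T8 L8 L7 920 := Join.stepTo st8_10 s8_10 lenS8_10 rfl

theorem st8_12 : StepTo 7 15 T8 L8 L7 981 := Join.stepTo st8_11 s8_11 lenS8_11 rfl

theorem st8_13 : StepTo 7 15 T8 L8 L7 1041 := Join.stepTo st8_12 s8_12 lenS8_12 rfl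

theorem st8_14 : StepTo 7 15 T8 L8 L7 1180 := Join.stepTo st8_13 s8_13 lenS8_13 rfl

theorem st8_15 : StepTo 7 15 T8 L8 L7 1238 := Join.stepTo st8_14 s8_14 lenS8_14 rfl

theorem chk8 : ChkOK 7 15 T8 L7 L8 := Join.chkOK_of cov7 st8_15

theorem tab9 : TabOK 9 lib T9 :=
  List.forall_mem_cons.2 ⟨⟨_, t9_0⟩,
    List.forall_mem_cons.2 ⟨⟨_, t9_1⟩,
    List.forall_mem_cons.2 ⟨⟨_, t9_2⟩,
    List.forall_mem_cons.2 ⟨⟨_, t9_3⟩,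
    List.forall_mem_cons.2 ⟨⟨_, t9_4⟩,
    List.forall_mem_cons.2 ⟨⟨_, t9_5⟩,
    List.forall_mem_cons.2 ⟨⟨_, t9_6⟩,
    List.forall_mem_cons.2 ⟨⟨_, t9_7⟩,
    List.forall_mem_cons.2 ⟨⟨_, t9_8⟩,
    List.forall_mem_cons.2 ⟨⟨_, t9_9⟩,
    List.forall_mem_cons.2 ⟨⟨_, t9_10⟩,
    List.forall_mem_cons.2 ⟨⟨_, t9_11⟩,
    List.forall_mem_cons.2 ⟨⟨_, t9_12⟩,
    List.forall_mem_cons.2 ⟨⟨_, t9_13⟩,
    List.forall_mem_cons.2 ⟨⟨_, t9_14⟩,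
    List.forall_mem_cons.2 ⟨⟨_, t9_15⟩,
    List.forall_mem_cons.2 ⟨⟨_, t9_16⟩,
    List.forall_mem_nil _⟩⟩⟩⟩⟩⟩⟩⟩⟩⟩⟩⟩⟩⟩⟩⟩⟩

theorem st9_0 : StepTo 8 18 T9 L9 L8 0 := stepTo_zero _ _ _ _ _

theorem st9_1 : StepTo 8 18 T9 L9 L8 76 := Join.stepTo st9_0 s9_0 lenS9_0 rfl

theorem st9_2 : StepTo 8 18 T9 L9 L8 132 := Join.stepTo st9_1 s9_1 lenS9_1 rfl

theorem st9_3 : StepTo 8 18 T9 L9 L8 198 := Join.stepTo st9_2 s9_2 lenS9_2 rfl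

theorem st9_4 : StepTo 8 18 T9 L9 L8 262 := Join.stepTo st9_3 s9_3 lenS9_3 rfl

theorem st9_5 : StepTo 8 18 T9 L9 L8 306 := Join.stepTo st9_4 s9_4 lenS9_4 rfl

theorem st9_6 : StepTo 8 18 T9 L9 L8 350 := Join.stepTo st9_5 s9_5 lenS9_5 rfl

theorem st9_7 : StepTo 8 18 T9 L9 L8 406 := Join.stepTo st9_6 s9_6 lenS9_6 rfl

theorem st9_8 : StepTo 8 18 T9 L9 L8 449 := Join.stepTo st9_7 s9_7 lenS9_7 rfl

theorem st9_9 : StepTo 8 18 T9 L9 L8 500 := Join.stepTo st9_8 s9_8 lenS9_8 rfl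

theorem st9_10 : StepTo 8 18 T9 L9 L8 550 := Join.stepTo st9_9 s9_9 lenS9_9 rfl

theorem st9_11 : StepTo 8 18 T9 L9 L8 594 := Join.stepTo st9_10 s9_10 lenS9_10 rfl

theorem st9_12 : StepTo 8 18 T9 L9 L8 644 := Join.stepTo st9_11 s9_11 lenS9_11 rfl

theorem st9_13 : StepTo 8 18 T9 L9 L8 704 := Join.stepTo st9_12 s9_12 lenS9_12 rfl

theorem st9_14 : StepTo 8 18 T9 L9 L8 774 := Join.stepTo st9_13 s9_13 lenS9_13 rfl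

theorem chk9 : ChkOK 8 18 T9 L8 L9 := Join.chkOK_of cov8 st9_14

theorem tab10 : TabOK 10 lib T10 :=
  List.forall_mem_cons.2 ⟨⟨_, t10_0⟩,
    List.forall_mem_cons.2 ⟨⟨_, t10_1⟩,
    List.forall_mem_cons.2 ⟨⟨_, t10_2⟩,
    List.forall_mem_cons.2 ⟨⟨_, t10_3⟩,
    List.forall_mem_nil _⟩⟩⟩⟩

theorem st10_0 : StepTo 9 22 T10 L10 L9 0 := stepTo_zero _ _ _ _ _

theorem st10_1 : StepTo 9 22 T10 L10 L9 215 := Join.stepTo st10_0 s10_0 lenS10_0 rfl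

theorem st10_2 : StepTo 9 22 T10 L10 L9 417 := Join.stepTo st10_1 s10_1 lenS10_1 rfl

theorem st10_3 : StepTo 9 22 T10 L10 L9 642 := Join.stepTo st10_2 s10_2 lenS10_2 rfl

theorem chk10 : ChkOK 9 22 T10 L9 L10 := Join.chkOK_of cov9 st10_3

theorem idata : IData K5 RTwo.DP.L7 lib T8 T9 T10 L7 L8 L9 :=
  ⟨Join.small5, libok, filfact, tab8, tab9, tab10, chk8, chk9, chk10,
    ⟨1238, scan7, cov7⟩, ⟨774, scan8, cov8⟩, ⟨642, scan9, cov9⟩⟩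

end RTwo.DF
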