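import Pool.Agent.Helper45.RT.Core

set_option maxRecDepth 100000
set_option autoImplicit false

namespace RTwo.DB

noncomputable def L10 : List Nat := []

theorem cov10 : cov L10 0 = true := by decide +kernel

end RTwo.DB
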