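import Pool.Agent.Helper45.RT.Core

set_option maxRecDepth 100000
set_option autoImplicit false

namespace RTwo.DP

noncomputable def L2 : List Nat := [0x20000800000000000000000000000000000000000000000000100004]

theorem cov2 : cov L2 2 = true := by decide +kernel

end RTwo.DP
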