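import Pool.Agent.Helper45.RT.Core

set_option maxRecDepth 100000
set_option autoImplicit false

namespace RTwo.DP

noncomputable def L3 : List Nat := [0xa0002000020000000000000000000000000000000000000000a000220002800000000000000000000000000000000000000090002000010000000000000000000000000000000000000000a0002100024000000000000000000000000000000000000000500010000100000000000000000000000000000000000000009000210001400000000000000000000000000000000000000050001100014]

theorem cov3 : cov L3 7 = true := by decide +kernel

end RTwo.DP
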