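import Pool.Agent.Helper45.RTD.P3T
import Pool.Agent.Helper45.RTD.P3L
import Pool.Agent.Helper45.RTD.P2L

set_option maxRecDepth 100000
set_option autoImplicit false

namespace RTwo.DP

def S3_0 : List Nat := [0x48004480020000000010400400003040010000000014000200001000000000000010000000004800448002000000001040040000304001000000001400020000100000000000001000000000,
 0x48006080040000000014000600005400030000000014000448003400010000000010000000004800608004000000001400060000540003000000001400044800340001000000001000000000]

theorem lenS3_0 : List.length S3_0 = 2 := rfl

theorem s3_0 : chk 2 2 T3 L3 L2 S3_0 0 = true := by decide +kernel


end RTwo.DP
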