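import Pool.Agent.Helper45.RT.Core

set_option maxRecDepth 100000
set_option autoImplicit false

namespace RTwo.DP

noncomputable def T3_0 : Nat := 0x0

noncomputable def T3 : List Nat := [T3_0]

end RTwo.DP
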