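import Pool.Agent.Helper45.RTD.P3T
import Pool.Agent.Helper45.RTD.PLib

set_option maxRecDepth 100000
set_option autoImplicit false

namespace RTwo.DP

theorem t3_0 : tabOK 3 T3_0 lib 1024 0 (0x0) = true := by decide +kernel


end RTwo.DP
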