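import Pool.Agent.Helper45.RT.Core

set_option maxRecDepth 100000
set_option autoImplicit false

namespace RTwo.DP

noncomputable def L4 : List Nat := [0x22000880002200088000000000000000000000000000000000280008a000a0000200000000000000000000000000000000002800089000a0000100000000000000000000000000000000002a00088000a0000800000000000000000000000000000000002a00088000a2000880000000000000000000000000000000002900088000a000040000000000000000000000000000000000090000a000a0000600000000000000000000000000000000000900006000900006000000000000000000000000000000000022000880002100084000000000000000000000000000000000120004800021000840000000000000000000000000000000002a000810008000090000000000000000000000000000000000240008900060000100000000000000000000000000000000002600088000600008000000000000000000000000000000000026000880006200088000000000000000000000000000000000250008800060000400000000000000000000000000000000002a0008400090000800000000000000000000000000000000002900084000900004000000000000000000000000000000000028000860009000020000000000000000000000000000000000290008a000a00006000000000000000000000000000000000029000860009000060000000000000000000000000000000000280008500090000100000000000000000000000000000000001a00048000a0000800000000000000000000000000000000002a00088000a1000840000000000000000000000000000000001a00048000a1000840000000000000000000000000000000001900048000a0000400000000000000000000000000000000002a000840009100084000000000000000000000000000000000210008800021000440000000000000000000000000000000002100084000110004400000000000000000000000000000000011000440001100044000000000000000000000000000000000090000500090000500000000000000000000000000000000001800046000900002000000000000000000000000000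0000000180004500090000100000000000000000000000000000000001a0004400090000800000000000000000000000000000000002900088000a100044000000000000000000000000000000000190004a000a000060000000000000000000000000000000000290008a000a10006400000000000000000000000000000000019000440009000040000000000000000000000000000000000290008400091000440000000000000000000000000000000001900044000910004400000000000000000000000000000000019000460009000060000000000000000000000000000000000290008600091000640000000000000000000000000000000001900046000910006400000000000000000000000000000000026000840005000080000000000000000000000000000000000250008400050000400000000000000000000000000000000002900081000800005000000000000000000000000000000000029000850009000050000000000000000000000000000000000240008500050000100000000000000000000000000000000001600048000600008000000000000000000000000000000000026000880006100084000000000000000000000000000000000160004800061000840000000000000000000000000000000001500048000600004000000000000000000000000000000000026000840005100084000000000000000000000000000000000190004100080000500000000000000000000000000000000001400045000500001000000000000000000000000000000000016000440005000080000000000000000000000000000000000250008800061000440000000000000000000000000000000001500044000500004000000000000000000000000000000000025000840005100044000000000000000000000000000000000150004400051000440000000000000000000000000000000001900045000900005000000000000000000000000000000000019000450009100054]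

theorem cov4 : cov L4 61 = true := by decide +kernel

end RTwo.DP
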