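import Pool.Agent.Helper45.RTD.P4T
import Pool.Agent.Helper45.RTD.P4L
import Pool.Agent.Helper45.RTD.P3L

set_option maxRecDepth 100000
set_option autoImplicit false

namespace RTwo.DP

def S4_0 : List Nat := [0xc0060c0040000000024c0084c0010002000024000700090008200000000140006040050400300000000200070006140004480034000200000000208001000000002000020000000510000000000c0060c0040000000024c0084c0010002000024000700090008200000000140006040050400300000000200070006140004480034000200000000208001000000002000020000000510000000000c0060c0040000000024c0084c001000200002400070009000820000000014000604005040030000000020007000614000448003400020000000020800100000000200002000000051000000000,
 0xc01c0c0180000000024001e4c01a4c0150000000024001d0c001000d000020000000014001c0401b040170000000020801a04019040140000000020000001614001848017400160000000024001500014000130000000024000140000000d000020000000010000000000c00d0c00a000000002080100013001224000e001500142000000001400120400c40009000000002000700061400110400b400030000000020800f0013001220000000510000000000c0120c0110000000024c0104c00f0002000020c00e0009000820000000014000d4800c4000b0000000020011001014000a480090c003000000002000f000e1000000000,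
 0x4c01f000000000000200002000900082000000001040220000000010402100000000100000000200021000000001000200000000010000000020000000000007000610001f000000002000000051000000000,
 0xc0270c0240000000024002b0c01a000100002400280004000320000000014002d04026400230000000020802a080190001000020000001614002c040254001700000000240029400140001000024000f0004000320000000010000000000c0300c02e0000000024c03200130012240031001500142000000001400304002f4000c0000000020011001014002e0c00c40005000000002000f000e10000000000c02d0c02c0000000020c02b4c02a4c0290000000020c0280c00f000d00002000000001400274802640025000000002000c000b140024480230c0170000000024001a000194c0140000000020000000a1000000000,
 0x4036000000000040350000000000000000020401f000000000000d0000200000000104034000000001080220000000010000000020403300000000140021000000001000000002000000000001100101000f000e1000000000,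
 0xc0390c0370000000024003b0c02a0001000024003a000400032000000001400394003840026000000002000c000b1400370c0264001b0000000024002a400190001000020000000a10000000000c0390c0370000000024003b0c02a0001000024003a000400032000000001400394003840026000000002000c000b1400370c0264001b0000000024002a400190001000020000000a10000000000c0390c0370000000024003b0c02a0001000024003a000400032000000001400394003840026000000002000c000b1400370c0264001b0000000024002a400190001000020000000a1000000000,
 0xc0360000000000001000020004000320000000010003c000000001400340000000010000000024c03400000000140022000000001000000002000000000000c000b1000360000000020000000a1000000000]

theorem lenS4_0 : List.length S4_0 = 7 := rfl

theorem s4_0 : chk 3 4 T4 L4 L3 S4_0 0 = true := by decide +kernel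


end RTwo.DP
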