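import Pool.Agent.Helper45.RT.Core

set_option maxRecDepth 100000
set_option autoImplicit false

namespace RTwo.DP

noncomputable def T4_0 : Nat := 0x6000060001000020000000000000000000000000000000000240000100002000180000000000000000000000000000000001400001000020001800000000000000000000000000000000028000010000200018000000000000000000000000000000000180000100002000180000000000000000000000000000000000a000090002000010000000000000000000000000000000000060000900020000100000000000000000000000000000000000900009000200001000000000000000000000000000000000005000090002000010000000000000000000000000000000000240000200001000240000000000000000000000000000000000a0000a0002000020000000000000000000000000000000000060000a0002000020000000000000000000000000000000000050000a000200002000000000000000000000000000000000024000010000100014000000000000000000000000000000000140000100001000140000000000000000000000000000000000a00005000100001000000000000000000000000000000000006000050001000010000000000000000000000000000000000050000500010000100000000000000000000000000000000002400002000020002800000000000000000000000000000000014000020000200028000000000000000000000000000000000280000100001000140000000000000000000000000000000002800002000020002800000000000000000000000000000000000000000000000000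

noncomputable def T4 : List Nat := [T4_0]

end RTwo.DP
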