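import Pool.Agent.Helper45.RTD.P4T
import Pool.Agent.Helper45.RTD.PLib

set_option maxRecDepth 100000
set_option autoImplicit false

namespace RTwo.DP

theorem t4_0 : tabOK 4 T4_0 lib 1024 0 (0xf8800100f0800300f1800200f8000400f9000100f0000400f0000300f0000100f0000200f0800100f0000500f9800400f9800100f0800200f0800000f1000100f1000200f0000000f0800400f1800100f8000100f0800500000000) = true := by decide +kernel


end RTwo.DP
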