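import Pool.Agent.Helper45.RTD.P6T
import Pool.Agent.Helper45.RTD.PLib

set_option maxRecDepth 100000
set_option autoImplicit false

namespace RTwo.DP

theorem t6_6 : tabOK 6 T6_6 lib 1024 0 (0x3f2887203f2887101f8808c03f2866903f9046003fa081303f007c003f0087003da808c03f986be03f9846003f084600378801503f2025003fa886f03f205db03f107c203f1086b03f1046c03f107ed03f1886f03f1886303f185440372807b03fa06cf03f1878d03fa883b03f884d803f8852c03f9076603f2852a03fa84d803fa852703fa878e03fa852403fa879103fa82f603f2086e03f9886d03f1013103f006be03f2833803f2877903f2886c03fa87c203fa886b03f904bf037a801303f2837003fa83c603f287ed03fa87ed03f2876e03f2876d03fa818103fa839503fa877203f2886a03f2886903f2886803f2886701f2804801f2802803d2804803d2802803f803ad03f803ac03d1804a03b1008803da807a03f0086603f0086503fa886403f003c90370004502f0004403fa886303f0086203f107f303f907e503f107f203f1046b03f983cc03f107eb03f103b403f8045d03f207fc03f2086103f103c203f2081203f8086003fa07ed03fa080b03f2885f03f1085e03fa885d03fa066903f2054c03f185fd03f801ca03f1885c03fa885b03fa012303f9045d02fa803403f1083b03f0076703ba001903f1856103f9081103f2045803fa885a03d0804103fa8407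03f281fd03fa84c203f0081703f002b703fa081703f2885903f2885803f2885703f2885603fa885503f284ec03fa851703f2885403f2885303f2885203f2080603ba003f03f2068a03f0084e03f0083603f007b603f0070803f0068803f2885103fa885003f0874603f2880503f804a203fa858903f106bd03f1058703f8884f03f2884e01f9008d01f0807803fa846003f9078103f985cd03f0870303f086d803f1881703f1884d03f9863203fa86bd03f8078d03ba804d03fa884c03fa877803f2884b03fa884a03f9020803d2804d03fa877703f2884903d880770378808303d1806303fa884903b2006303f1872602f800890378006303f2884703f2884801f2802a01fa802a03fa88470370001903f8074603f8059503f1884603fa84ca03f284ca03f8884603f887af03fa821f03fa867103f2083203f2070603f8083203f8070603f204c903f2884503f2884403f804c903f8024f03fa884503fa884403f885db03f808430378808403fa85e303f2884203f205a903fa884003fa832103f2884103f1064a03fa884103f004e103f9064a03b8005003f2884003f2832103f2869e03fa869e01f8006603d9006803f901d303f9015303f9081703f1015303f102b203f1081703f902b203f1859801f2008003f101d303fa86b103f2876803f286ad03f2853a03fa876803f9851f037a002703f887d402f0007a03f203c401d2800202f8008c02f8008803f906bf03fa036e03da808403f8837003fa84ab03f8065203f284580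3f2841403f2883f03f0883d03f1883b03f2883e03f1836e03ba808403f2881203f9083d03f086bf03f0846a03f186df03f1883c03f9883b03f9883a03fa876703f9883903f2883803fa883703f187e603f1845803f2024a03f006ed02fa808103f2883603f0074503f188350379808d01fa808203f0082003f2883303f2883403fa883303f0883203f204cb03fa883103f8864a03fa053a03f804d703fa06af03f8082b03f806b103f8083003f007bf03f1845303f2882f03fa882e03f2882d03f2844f03f104f303fa86d203fa882c03b8004503f0864a03fa881f03f2872203d2808003f8064703f904d703f2872b03fa872503b1006b03fa858803fa872903f2872d03f8072003f8081503f8068903fa872c03fa844d03f1878303f2078103f2072f03f0072602f2008703f804e103fa864a03f2882b03f2882a03f2882903fa882803fa844c03fa882703f2864403fa864303f2864703f2878003f084e703f1880703f1081603f1058801f8007703f8837303f886bc03f882e5) = true := by decide +kernel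


end RTwo.DP
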