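import Pool.Agent.Helper45.RTD.P6L

set_option maxRecDepth 100000
set_option autoImplicit false

namespace RTwo.DP

theorem scan6 : scan 6 14 L6 5146 0 = true := by decide +kernel


end RTwo.DP
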