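import Pool.Agent.Helper45.RT.Join
import Pool.Agent.Helper45.RTD.P3S0
import Pool.Agent.Helper45.RTD.P3TC0
import Pool.Agent.Helper45.RTD.P4S0
import Pool.Agent.Helper45.RTD.P4TC0
import Pool.Agent.Helper45.RTD.P5S0
import Pool.Agent.Helper45.RTD.P5TC0
import Pool.Agent.Helper45.RTD.P6S0
import Pool.Agent.Helper45.RTD.P6S1
import Pool.Agent.Helper45.RTD.P6S2
import Pool.Agent.Helper45.RTD.P6TC0
import Pool.Agent.Helper45.RTD.P6TC1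
import Pool.Agent.Helper45.RTD.P7S0
import Pool.Agent.Helper45.RTD.P7S1
import Pool.Agent.Helper45.RTD.P7S10
import Pool.Agent.Helper45.RTD.P7S11
import Pool.Agent.Helper45.RTD.P7S12
import Pool.Agent.Helper45.RTD.P7S13
import Pool.Agent.Helper45.RTD.P7S14
import Pool.Agent.Helper45.RTD.P7S2
import Pool.Agent.Helper45.RTD.P7S3
import Pool.Agent.Helper45.RTD.P7S4
import Pool.Agent.Helper45.RTD.P7S5
import Pool.Agent.Helper45.RTD.P7S6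
import Pool.Agent.Helper45.RTD.P7S7
import Pool.Agent.Helper45.RTD.P7S8
import Pool.Agent.Helper45.RTD.P7S9
import Pool.Agent.Helper45.RTD.P7TC0
import Pool.Agent.Helper45.RTD.P7TC1
import Pool.Agent.Helper45.RTD.P7TC2
import Pool.Agent.Helper45.RTD.P7TC3
import Pool.Agent.Helper45.RTD.P7TC4
import Pool.Agent.Helper45.RTD.P7TC5
import Pool.Agent.Helper45.RTD.PLibC0
import Pool.Agent.Helper45.RTD.PLibC1
import Pool.Agent.Helper45.RTD.PLibC2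
import Pool.Agent.Helper45.RTD.PLibC3
import Pool.Agent.Helper45.RTD.PLibC4
import Pool.Agent.Helper45.RTD.PQ

/-!
Joining the pieces of the data of chain P.
-/

set_option autoImplicit false

namespace RTwo.DP

open RTwo.Glue

theorem lt_0 : LibTo KP lib 0 := libTo_zero _ _

theorem lt_1 : LibTo KP lib 220 := Join.libTo lt_0 c0 lenC0 rfl

theorem lt_2 : LibTo KP lib 440 := Join.libTo lt_1 c1 lenC1 rfl

theorem lt_3 : LibTo KP lib 660 := Join.libTo lt_2 c2 lenC2 rfl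

theorem lt_4 : LibTo KP lib 880 := Join.libTo lt_3 c3 lenC3 rfl

theorem lt_5 : LibTo KP lib 1100 := Join.libTo lt_4 c4 lenC4 rfl

theorem lt_6 : LibTo KP lib 1320 := Join.libTo lt_5 c5 lenC5 rfl

theorem lt_7 : LibTo KP lib 1540 := Join.libTo lt_6 c6 lenC6 rfl

theorem lt_8 : LibTo KP lib 1760 := Join.libTo lt_7 c7 lenC7 rfl

theorem lt_9 : LibTo KP lib 1980 := Join.libTo lt_8 c8 lenC8 rfl

theorem lt_10 : LibTo KP lib 2200 := Join.libTo lt_9 c9 lenC9 rfl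

theorem lt_11 : LibTo KP lib 2420 := Join.libTo lt_10 c10 lenC10 rfl

theorem lt_12 : LibTo KP lib 2640 := Join.libTo lt_11 c11 lenC11 rfl

theorem lt_13 : LibTo KP lib 2860 := Join.libTo lt_12 c12 lenC12 rfl

theorem lt_14 : LibTo KP lib 3080 := Join.libTo lt_13 c13 lenC13 rfl

theorem lt_15 : LibTo KP lib 3300 := Join.libTo lt_14 c14 lenC14 rfl

theorem lt_16 : LibTo KP lib 3520 := Join.libTo lt_15 c15 lenC15 rfl

theorem lt_17 : LibTo KP lib 3740 := Join.libTo lt_16 c16 lenC16 rfl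

theorem lt_18 : LibTo KP lib 3960 := Join.libTo lt_17 c17 lenC17 rfl

theorem lt_19 : LibTo KP lib 4180 := Join.libTo lt_18 c18 lenC18 rfl

theorem lt_20 : LibTo KP lib 4400 := Join.libTo lt_19 c19 lenC19 rfl

theorem lt_21 : LibTo KP lib 4620 := Join.libTo lt_20 c20 lenC20 rfl

theorem lt_22 : LibTo KP lib 4840 := Join.libTo lt_21 c21 lenC21 rfl

theorem lt_23 : LibTo KP lib 5060 := Join.libTo lt_22 c22 lenC22 rfl

theorem lt_24 : LibTo KP lib 5280 := Join.libTo lt_23 c23 lenC23 rfl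

theorem lt_25 : LibTo KP lib 5500 := Join.libTo lt_24 c24 lenC24 rfl

theorem lt_26 : LibTo KP lib 5720 := Join.libTo lt_25 c25 lenC25 rfl

theorem lt_27 : LibTo KP lib 5940 := Join.libTo lt_26 c26 lenC26 rfl

theorem lt_28 : LibTo KP lib 6160 := Join.libTo lt_27 c27 lenC27 rfl

theorem lt_29 : LibTo KP lib 6380 := Join.libTo lt_28 c28 lenC28 rfl

theorem lt_30 : LibTo KP lib 6600 := Join.libTo lt_29 c29 lenC29 rfl

theorem lt_31 : LibTo KP lib 6820 := Join.libTo lt_30 c30 lenC30 rfl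

theorem lt_32 : LibTo KP lib 7040 := Join.libTo lt_31 c31 lenC31 rfl

theorem lt_33 : LibTo KP lib 7260 := Join.libTo lt_32 c32 lenC32 rfl

theorem lt_34 : LibTo KP lib 7263 := Join.libTo lt_33 c33 lenC33 rfl

theorem libok : LibOK KP lib := Join.libOK_of covlib lt_34

theorem tab3 : TabOK 3 lib T3 :=
  List.forall_mem_cons.2 ⟨⟨_, t3_0⟩,
    List.forall_mem_nil _⟩

theorem st3_0 : StepTo 2 2 T3 L3 L2 0 := stepTo_zero _ _ _ _ _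

theorem st3_1 : StepTo 2 2 T3 L3 L2 2 := Join.stepTo st3_0 s3_0 lenS3_0 rfl

theorem chk3 : ChkOK 2 2 T3 L2 L3 := Join.chkOK_of cov2 st3_1

theorem tab4 : TabOK 4 lib T4 :=
  List.forall_mem_cons.2 ⟨⟨_, t4_0⟩,
    List.forall_mem_nil _⟩

theorem st4_0 : StepTo 3 4 T4 L4 L3 0 := stepTo_zero _ _ _ _ _

theorem st4_1 : StepTo 3 4 T4 L4 L3 7 := Join.stepTo st4_0 s4_0 lenS4_0 rfl

theorem chk4 : ChkOK 3 4 T4 L3 L4 := Join.chkOK_of cov3 st4_1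

theorem tab5 : TabOK 5 lib T5 :=
  List.forall_mem_cons.2 ⟨⟨_, t5_0⟩,
    List.forall_mem_nil _⟩

theorem st5_0 : StepTo 4 6 T5 L5 L4 0 := stepTo_zero _ _ _ _ _

theorem st5_1 : StepTo 4 6 T5 L5 L4 30 := Join.stepTo st5_0 s5_0 lenS5_0 rfl

theorem st5_2 : StepTo 4 6 T5 L5 L4 61 := Join.stepTo st5_1 s5_1 lenS5_1 rfl

theorem chk5 : ChkOK 4 6 T5 L4 L5 := Join.chkOK_of cov4 st5_2

theorem tab6 : TabOK 6 lib T6 :=
  List.forall_mem_cons.2 ⟨⟨_, t6_0⟩,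
    List.forall_mem_cons.2 ⟨⟨_, t6_1⟩,
    List.forall_mem_cons.2 ⟨⟨_, t6_2⟩,
    List.forall_mem_cons.2 ⟨⟨_, t6_3⟩,
    List.forall_mem_cons.2 ⟨⟨_, t6_4⟩,
    List.forall_mem_cons.2 ⟨⟨_, t6_5⟩,
    List.forall_mem_cons.2 ⟨⟨_, t6_6⟩,
    List.forall_mem_nil _⟩⟩⟩⟩⟩⟩⟩

theorem st6_0 : StepTo 5 9 T6 L6 L5 0 := stepTo_zero _ _ _ _ _

theorem st6_1 : StepTo 5 9 T6 L6 L5 91 := Join.stepTo st6_0 s6_0 lenS6_0 rfl

theorem st6_2 : StepTo 5 9 T6 L6 L5 271 := Join.stepTo st6_1 s6_1 lenS6_1 rfl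

theorem st6_3 : StepTo 5 9 T6 L6 L5 413 := Join.stepTo st6_2 s6_2 lenS6_2 rfl

theorem st6_4 : StepTo 5 9 T6 L6 L5 483 := Join.stepTo st6_3 s6_3 lenS6_3 rfl

theorem st6_5 : StepTo 5 9 T6 L6 L5 552 := Join.stepTo st6_4 s6_4 lenS6_4 rfl

theorem st6_6 : StepTo 5 9 T6 L6 L5 626 := Join.stepTo st6_5 s6_5 lenS6_5 rfl

theorem st6_7 : StepTo 5 9 T6 L6 L5 770 := Join.stepTo st6_6 s6_6 lenS6_6 rfl

theorem st6_8 : StepTo 5 9 T6 L6 L5 931 := Join.stepTo st6_7 s6_7 lenS6_7 rfl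

theorem chk6 : ChkOK 5 9 T6 L5 L6 := Join.chkOK_of cov5 st6_8

theorem tab7 : TabOK 7 lib T7 :=
  List.forall_mem_cons.2 ⟨⟨_, t7_0⟩,
    List.forall_mem_cons.2 ⟨⟨_, t7_1⟩,
    List.forall_mem_cons.2 ⟨⟨_, t7_2⟩,
    List.forall_mem_cons.2 ⟨⟨_, t7_3⟩,
    List.forall_mem_cons.2 ⟨⟨_, t7_4⟩,
    List.forall_mem_cons.2 ⟨⟨_, t7_5⟩,
    List.forall_mem_cons.2 ⟨⟨_, t7_6⟩,
    List.forall_mem_cons.2 ⟨⟨_, t7_7⟩,
    List.forall_mem_cons.2 ⟨⟨_, t7_8⟩,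
    List.forall_mem_cons.2 ⟨⟨_, t7_9⟩,
    List.forall_mem_cons.2 ⟨⟨_, t7_10⟩,
    List.forall_mem_cons.2 ⟨⟨_, t7_11⟩,
    List.forall_mem_cons.2 ⟨⟨_, t7_12⟩,
    List.forall_mem_cons.2 ⟨⟨_, t7_13⟩,
    List.forall_mem_cons.2 ⟨⟨_, t7_14⟩,
    List.forall_mem_cons.2 ⟨⟨_, t7_15⟩,
    List.forall_mem_cons.2 ⟨⟨_, t7_16⟩,
    List.forall_mem_cons.2 ⟨⟨_, t7_17⟩,
    List.forall_mem_cons.2 ⟨⟨_, t7_18⟩,
    List.forall_mem_cons.2 ⟨⟨_, t7_19⟩,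
    List.forall_mem_cons.2 ⟨⟨_, t7_20⟩,
    List.forall_mem_cons.2 ⟨⟨_, t7_21⟩,
    List.forall_mem_cons.2 ⟨⟨_, t7_22⟩,
    List.forall_mem_cons.2 ⟨⟨_, t7_23⟩,
    List.forall_mem_cons.2 ⟨⟨_, t7_24⟩,
    List.forall_mem_cons.2 ⟨⟨_, t7_25⟩,
    List.forall_mem_cons.2 ⟨⟨_, t7_26⟩,
    List.forall_mem_cons.2 ⟨⟨_, t7_27⟩,
    List.forall_mem_cons.2 ⟨⟨_, t7_28⟩,
    List.forall_mem_cons.2 ⟨⟨_, t7_29⟩,
    List.forall_mem_cons.2 ⟨⟨_, t7_30⟩,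
    List.forall_mem_cons.2 ⟨⟨_, t7_31⟩,
    List.forall_mem_cons.2 ⟨⟨_, t7_32⟩,
    List.forall_mem_cons.2 ⟨⟨_, t7_33⟩,
    List.forall_mem_cons.2 ⟨⟨_, t7_34⟩,
    List.forall_mem_cons.2 ⟨⟨_, t7_35⟩,
    List.forall_mem_nil _⟩⟩⟩⟩⟩⟩⟩⟩⟩⟩⟩⟩⟩⟩⟩⟩⟩⟩⟩⟩⟩⟩⟩⟩⟩⟩⟩⟩⟩⟩⟩⟩⟩⟩⟩⟩

theorem st7_0 : StepTo 6 12 T7 L7 L6 0 := stepTo_zero _ _ _ _ _

theorem st7_1 : StepTo 6 12 T7 L7 L6 182 := Join.stepTo st7_0 s7_0 lenS7_0 rfl

theorem st7_2 : StepTo 6 12 T7 L7 L6 335 := Join.stepTo st7_1 s7_1 lenS7_1 rfl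

theorem st7_3 : StepTo 6 12 T7 L7 L6 462 := Join.stepTo st7_2 s7_2 lenS7_2 rfl

theorem st7_4 : StepTo 6 12 T7 L7 L6 625 := Join.stepTo st7_3 s7_3 lenS7_3 rfl

theorem st7_5 : StepTo 6 12 T7 L7 L6 794 := Join.stepTo st7_4 s7_4 lenS7_4 rfl

theorem st7_6 : StepTo 6 12 T7 L7 L6 954 := Join.stepTo st7_5 s7_5 lenS7_5 rfl

theorem st7_7 : StepTo 6 12 T7 L7 L6 1123 := Join.stepTo st7_6 s7_6 lenS7_6 rfl

theorem st7_8 : StepTo 6 12 T7 L7 L6 1318 := Join.stepTo st7_7 s7_7 lenS7_7 rfl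

theorem st7_9 : StepTo 6 12 T7 L7 L6 1435 := Join.stepTo st7_8 s7_8 lenS7_8 rfl

theorem st7_10 : StepTo 6 12 T7 L7 L6 1588 := Join.stepTo st7_9 s7_9 lenS7_9 rfl

theorem st7_11 : StepTo 6 12 T7 L7 L6 1709 := Join.stepTo st7_10 s7_10 lenS7_10 rfl

theorem st7_12 : StepTo 6 12 T7 L7 L6 1890 := Join.stepTo st7_11 s7_11 lenS7_11 rfl

theorem st7_13 : StepTo 6 12 T7 L7 L6 2001 := Join.stepTo st7_12 s7_12 lenS7_12 rfl

theorem st7_14 : StepTo 6 12 T7 L7 L6 2132 := Join.stepTo st7_13 s7_13 lenS7_13 rfl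

theorem st7_15 : StepTo 6 12 T7 L7 L6 2277 := Join.stepTo st7_14 s7_14 lenS7_14 rfl

theorem st7_16 : StepTo 6 12 T7 L7 L6 2390 := Join.stepTo st7_15 s7_15 lenS7_15 rfl

theorem st7_17 : StepTo 6 12 T7 L7 L6 2476 := Join.stepTo st7_16 s7_16 lenS7_16 rfl

theorem st7_18 : StepTo 6 12 T7 L7 L6 2566 := Join.stepTo st7_17 s7_17 lenS7_17 rfl

theorem st7_19 : StepTo 6 12 T7 L7 L6 2671 := Join.stepTo st7_18 s7_18 lenS7_18 rfl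

theorem st7_20 : StepTo 6 12 T7 L7 L6 2778 := Join.stepTo st7_19 s7_19 lenS7_19 rfl

theorem st7_21 : StepTo 6 12 T7 L7 L6 2903 := Join.stepTo st7_20 s7_20 lenS7_20 rfl

theorem st7_22 : StepTo 6 12 T7 L7 L6 3006 := Join.stepTo st7_21 s7_21 lenS7_21 rfl

theorem st7_23 : StepTo 6 12 T7 L7 L6 3104 := Join.stepTo st7_22 s7_22 lenS7_22 rfl

theorem st7_24 : StepTo 6 12 T7 L7 L6 3169 := Join.stepTo st7_23 s7_23 lenS7_23 rfl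

theorem st7_25 : StepTo 6 12 T7 L7 L6 3252 := Join.stepTo st7_24 s7_24 lenS7_24 rfl

theorem st7_26 : StepTo 6 12 T7 L7 L6 3331 := Join.stepTo st7_25 s7_25 lenS7_25 rfl

theorem st7_27 : StepTo 6 12 T7 L7 L6 3455 := Join.stepTo st7_26 s7_26 lenS7_26 rfl

theorem st7_28 : StepTo 6 12 T7 L7 L6 3546 := Join.stepTo st7_27 s7_27 lenS7_27 rfl

theorem st7_29 : StepTo 6 12 T7 L7 L6 3667 := Join.stepTo st7_28 s7_28 lenS7_28 rfl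

theorem st7_30 : StepTo 6 12 T7 L7 L6 3824 := Join.stepTo st7_29 s7_29 lenS7_29 rfl

theorem st7_31 : StepTo 6 12 T7 L7 L6 3971 := Join.stepTo st7_30 s7_30 lenS7_30 rfl

theorem st7_32 : StepTo 6 12 T7 L7 L6 4070 := Join.stepTo st7_31 s7_31 lenS7_31 rfl

theorem st7_33 : StepTo 6 12 T7 L7 L6 4182 := Join.stepTo st7_32 s7_32 lenS7_32 rfl

theorem st7_34 : StepTo 6 12 T7 L7 L6 4297 := Join.stepTo st7_33 s7_33 lenS7_33 rfl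

theorem st7_35 : StepTo 6 12 T7 L7 L6 4395 := Join.stepTo st7_34 s7_34 lenS7_34 rfl

theorem st7_36 : StepTo 6 12 T7 L7 L6 4503 := Join.stepTo st7_35 s7_35 lenS7_35 rfl

theorem st7_37 : StepTo 6 12 T7 L7 L6 4550 := Join.stepTo st7_36 s7_36 lenS7_36 rfl

theorem st7_38 : StepTo 6 12 T7 L7 L6 4624 := Join.stepTo st7_37 s7_37 lenS7_37 rfl

theorem st7_39 : StepTo 6 12 T7 L7 L6 4774 := Join.stepTo st7_38 s7_38 lenS7_38 rfl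

theorem st7_40 : StepTo 6 12 T7 L7 L6 4899 := Join.stepTo st7_39 s7_39 lenS7_39 rfl

theorem st7_41 : StepTo 6 12 T7 L7 L6 5000 := Join.stepTo st7_40 s7_40 lenS7_40 rfl

theorem st7_42 : StepTo 6 12 T7 L7 L6 5094 := Join.stepTo st7_41 s7_41 lenS7_41 rfl

theorem st7_43 : StepTo 6 12 T7 L7 L6 5146 := Join.stepTo st7_42 s7_42 lenS7_42 rfl

theorem chk7 : ChkOK 6 12 T7 L6 L7 := Join.chkOK_of cov6 st7_43

theorem L2_eq : L2 = [4 + 2 ^ 20 + (8 + 2 ^ 21) * 2 ^ 200] := by decide +kernel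

theorem pdata : PData lib T3 T4 T5 T6 T7 L3 L4 L5 L6 L7 :=
  ⟨libok, tab3, tab4, tab5, tab6, tab7, L2_eq ▸ chk3, chk4, chk5, chk6, chk7,
    ⟨5146, scan6, cov6⟩⟩

end RTwo.DP
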